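import Pool.Agent.H88.Hot3

open Pool.Agent.H88.Hot

namespace Pool.Agent.Results.MP_630a53_an.Exists

theorem result : ∃ G : QG, G.Good ∧ G.M 0 = G.Pts ∧
    ∀ H, Relation.EqvGen Insert G H → ¬ H.Pumpkin ∧ ¬ H.Complete :=
  ⟨GB, GB_good, GB_all, GB_new⟩

end Pool.Agent.Results.MP_630a53_an.Exists
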